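import Pool.Agent.H27.G.R_seed8.W123.GS.Grid

set_option autoImplicit false

/-!
# All but boundedly many scales: the abstract theorem
-/

namespace Pool.Agent.W123.GS

open Finset Pool.Agent.W123.RP

section
variable {P : ℕ → Prop} [DecidablePred P]

lemma co_le3 (u w T : ℕ) (h : w ≤ 3 * T) :
    ((co P u (u + w) : ℝ)) ^ 2 ≤ 3 * (((co P u (u + T) : ℝ)) ^ 2 + ((co P (u + T) (u + 2 * T) : ℝ)) ^ 2 +
      ((co P (u + 2 * T) (u + 3 * T) : ℝ)) ^ 2) := by
  have h1 : co P u (u + w) ≤ co P u (u + T) + co P (u + T) (u + 2 * T) + co P (u + 2 * T) (u + 3 * T) := by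
    rw [co_add (by omega) (by omega), co_add (by omega) (by omega)]
    exact co_mono (by omega)
  have h2 : (co P u (u + w) : ℝ) ≤ co P u (u + T) + co P (u + T) (u + 2 * T) +
      co P (u + 2 * T) (u + 3 * T) := by exact_mod_cast h1
  have h0 : (0 : ℝ) ≤ co P u (u + w) := Nat.cast_nonneg _
  set x : ℝ := (co P u (u + T) : ℝ)
  set y : ℝ := (co P (u + T) (u + 2 * T) : ℝ)
  set z : ℝ := (co P (u + 2 * T) (u + 3 * T) : ℝ)
  calc ((co P u (u + w) : ℝ)) ^ 2 ≤ (x + y + z) ^ 2 := pow_le_pow_left₀ h0 h2 2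
    _ ≤ _ := by nlinarith [sq_nonneg (x - y), sq_nonneg (y - z), sq_nonneg (x - z)]

lemma sum_inj (f : ℕ → ℝ) (hf : ∀ n, 0 ≤ f n) (X T w N base : ℕ) (hTw : T ≤ w) (h1 : X ≤ base)
    (h2 : base + T + N * w ≤ 2 * X) :
    ∑ a ∈ range T, ∑ i ∈ range N, f (base + a + i * w) ≤ ∑ n ∈ Ico X (2 * X + 1), f n := by
  classical
  rw [← Finset.sum_product']
  have hinj : Set.InjOn (fun x : ℕ × ℕ => base + x.1 + x.2 * w)
      (↑(range T ×ˢ range N) : Set (ℕ × ℕ)) := by
    rintro ⟨a, i⟩ hx ⟨b, k⟩ hy hxy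
    rw [Finset.mem_coe, mem_product, mem_range, mem_range] at hx hy
    simp only at hx hy hxy
    have hik : i = k := by
      rcases lt_trichotomy i k with h | h | h
      · exfalso
        have h3 : (i + 1) * w ≤ k * w := Nat.mul_le_mul_right w h
        have h4 : (i + 1) * w = i * w + w := by ring
        omega
      · exact h
      · exfalso
        have h3 : (k + 1) * w ≤ i * w := Nat.mul_le_mul_right w h
        have h4 : (k + 1) * w = k * w + w := by ring
        omega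
    subst hik
    have : a = b := by omega
    rw [this]
  have h3 : ∑ x ∈ range T ×ˢ range N, f (base + x.1 + x.2 * w) =
      ∑ n ∈ (range T ×ˢ range N).image (fun x : ℕ × ℕ => base + x.1 + x.2 * w), f n :=
    (Finset.sum_image hinj).symm
  rw [h3]
  apply Finset.sum_le_sum_of_subset_of_nonneg
  · intro n hn
    rw [mem_image] at hn
    obtain ⟨⟨a, i⟩, hx, rfl⟩ := hn
    rw [mem_product, mem_range, mem_range] at hx
    rw [mem_Ico]
    simp only at hx ⊢
    have h4 : i * w ≤ N * w := Nat.mul_le_mul_right w hx.2.le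
    omega
  · intro n _ _
    exact hf n

lemma energy (X T w N base : ℕ) (hTw : T ≤ w) (hw : w ≤ 3 * T) (h1 : X ≤ base)
    (h2 : base + 3 * T + N * w ≤ 2 * X) :
    ∑ a ∈ range T, ∑ i ∈ range N, ((co P (base + a + i * w) (base + a + i * w + w) : ℝ)) ^ 2 ≤
      9 * ∑ n ∈ Ico X (2 * X + 1), ((co P n (n + T) : ℝ)) ^ 2 := by
  set f : ℕ → ℝ := fun n => ((co P n (n + T) : ℝ)) ^ 2 with hf
  have hf0 : ∀ n, 0 ≤ f n := fun n => by simp only [hf]; positivity
  have k0 := sum_inj f hf0 X T w N base hTw h1 (by omega)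
  have k1 := sum_inj f hf0 X T w N (base + T) hTw (by omega) (by omega)
  have k2 := sum_inj f hf0 X T w N (base + 2 * T) hTw (by omega) (by omega)
  have h3 : ∀ a ∈ range T, ∑ i ∈ range N, ((co P (base + a + i * w) (base + a + i * w + w) : ℝ)) ^ 2 ≤
      ∑ i ∈ range N, 3 * (f (base + a + i * w) + f (base + T + a + i * w) +
        f (base + 2 * T + a + i * w)) := by
    intro a _
    apply Finset.sum_le_sum
    intro i _
    have h4 := co_le3 (P := P) (base + a + i * w) w T hw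
    have e1 : base + T + a + i * w = base + a + i * w + T := by ring
    have e2 : base + 2 * T + a + i * w = base + a + i * w + 2 * T := by ring
    have e3 : base + a + i * w + 2 * T = base + a + i * w + T + T := by ring
    have e4 : base + a + i * w + 3 * T = base + a + i * w + 2 * T + T := by ring
    simp only [hf]
    rw [e1, e2]
    rw [e4] at h4
    have e5 : ((co P (base + a + i * w + T) (base + a + i * w + 2 * T) : ℝ)) =
        co P (base + a + i * w + T) (base + a + i * w + T + T) := by rw [e3]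
    rw [e5] at h4
    exact h4
  refine (Finset.sum_le_sum h3).trans ?_
  simp only [← Finset.mul_sum, Finset.sum_add_distrib]
  linarith

end

/-- at the scale `2 ^ j` the set `P` has a constant density around `n` -/
def Good (P : ℕ → Prop) [DecidablePred P] (c₁ c₂ δ L : ℝ) (n j : ℕ) : Prop :=
  ∃ θ : ℝ, c₁ ≤ θ ∧ θ ≤ c₂ ∧ ∀ u v : ℕ, n ≤ u + 2 ^ j → u ≤ v → v ≤ n + 2 ^ j →
    |(co P u v : ℝ) - θ * ((v : ℝ) - u) / L| ≤ δ * 2 ^ j / L

open Classical in
/-- number of bad levels at `n` -/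
noncomputable def bc (g : ℕ → ℝ) (q : ℕ) (τ : ℝ) (R A' w n : ℕ) : ℕ :=
  ((range R).filter (fun l => Bad g q τ l ((n - A' - 1) / (2 ^ (l + q) * w)))).card

open Classical in
/-- the sum of the numbers of bad levels -/
lemma sum_bc (g : ℕ → ℝ) (M r q : ℕ) (τ : ℝ) (hτ : 0 < τ) (hq : q ≤ r) (A' w : ℕ) (hw : 1 ≤ w) :
    ∑ n ∈ Ioc A' (A' + M * 2 ^ r * w), (bc g q τ (r - q + 1) A' w n : ℝ) ≤
      w * (q * 2 ^ q / τ ^ 2 * ∑ i ∈ range (M * 2 ^ r), (g (i + 1) - g i) ^ 2) := by
  have h1 : ∑ n ∈ Ioc A' (A' + M * 2 ^ r * w), bc g q τ (r - q + 1) A' w n =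
      ∑ l ∈ range (r - q + 1), ((Ioc A' (A' + M * 2 ^ r * w)).filter
        (fun n => Bad g q τ l ((n - A' - 1) / (2 ^ (l + q) * w)))).card := by
    unfold bc
    simp only [Finset.card_filter]
    exact Finset.sum_comm
  have h2 : ∀ l ∈ range (r - q + 1), (((Ioc A' (A' + M * 2 ^ r * w)).filter
        (fun n => Bad g q τ l ((n - A' - 1) / (2 ^ (l + q) * w)))).card : ℝ) ≤
      w * ((2 : ℝ) ^ (l + q) *
      (((range (M * 2 ^ (r - (l + q)))).filter (Bad g q τ l)).card : ℝ)) := by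
    intro l hl
    rw [mem_range] at hl
    have h3 := card_blocks (Bad g q τ l) A' (M * 2 ^ (r - (l + q))) (2 ^ (l + q) * w)
      (Nat.mul_pos (by positivity) hw)
    have e : M * 2 ^ (r - (l + q)) * (2 ^ (l + q) * w) = M * 2 ^ r * w := by
      have h4 : 2 ^ (r - (l + q)) * 2 ^ (l + q) = 2 ^ r := by
        rw [← pow_add]; congr 1; omega
      calc M * 2 ^ (r - (l + q)) * (2 ^ (l + q) * w) = M * (2 ^ (r - (l + q)) * 2 ^ (l + q)) * w := by
            ring
        _ = _ := by rw [h4]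
    rw [e] at h3
    have h5 : (((Ioc A' (A' + M * 2 ^ r * w)).filter
        (fun n => Bad g q τ l ((n - A' - 1) / (2 ^ (l + q) * w)))).card : ℝ) ≤
        ((2 ^ (l + q) * w * ((range (M * 2 ^ (r - (l + q)))).filter (Bad g q τ l)).card : ℕ) : ℝ) := by
      exact_mod_cast h3
    refine h5.trans (le_of_eq ?_)
    push_cast
    ring
  have h3 : ∑ n ∈ Ioc A' (A' + M * 2 ^ r * w), (bc g q τ (r - q + 1) A' w n : ℝ) =
      ∑ l ∈ range (r - q + 1), (((Ioc A' (A' + M * 2 ^ r * w)).filter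
        (fun n => Bad g q τ l ((n - A' - 1) / (2 ^ (l + q) * w)))).card : ℝ) := by
    exact_mod_cast h1
  rw [h3]
  refine (Finset.sum_le_sum h2).trans ?_
  rw [← Finset.mul_sum]
  exact mul_le_mul_of_nonneg_left (mart g M r q τ hτ hq) (Nat.cast_nonneg w)

end Pool.Agent.W123.GS
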