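import Pool.Agent.H27.G.R_seed8.W123.GS.Mart
import Pool.Agent.H27.G.R_seed8.W123.RP.Abs

set_option autoImplicit false

/-!
# Two grids; discrepancy in a good block
-/

namespace Pool.Agent.W123.GS

open Finset Pool.Agent.W123.RP

/-- `(4 ^ m - 1) / 3` -/
def S4 (m : ℕ) : ℕ := ∑ i ∈ range m, 4 ^ i

lemma S4_eq (m : ℕ) : 3 * S4 m + 1 = 4 ^ m := by
  unfold S4
  induction m with
  | zero => simp
  | succ m ih => rw [Finset.sum_range_succ, pow_succ]; omega

lemma S4_split (a b : ℕ) : S4 (a + b) = S4 a + 4 ^ a * S4 b := by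
  have h1 := S4_eq (a + b)
  have h2 := S4_eq a
  have h3 := S4_eq b
  have h4 : 3 * S4 (a + b) + 1 = 3 * (S4 a + 4 ^ a * S4 b) + 1 := by
    rw [h1, pow_add, ← h3]
    have : 4 ^ a * (3 * S4 b + 1) = 3 * (4 ^ a * S4 b) + 4 ^ a := by ring
    rw [this]
    omega
  omega

/-- the shift of the second grid is far from the multiples of all powers of two -/
lemma S4_mod (m j : ℕ) (h : j ≤ 2 * m) : ∃ s0 k : ℕ, S4 m = s0 + k * 2 ^ j ∧
    (3 * s0 + 1 = 2 ^ j ∨ 3 * s0 + 1 = 2 ^ (j + 1)) := by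
  rcases Nat.even_or_odd' j with ⟨i, hi | hi⟩
  · obtain ⟨b, hb⟩ : ∃ b, m = i + b := ⟨m - i, by omega⟩
    refine ⟨S4 i, S4 b, ?_, Or.inl ?_⟩
    · rw [hb, S4_split, hi, pow_mul]
      norm_num
      ring
    · rw [S4_eq, hi, pow_mul]; norm_num
  · obtain ⟨b, hb⟩ : ∃ b, m = (i + 1) + b := ⟨m - (i + 1), by omega⟩
    refine ⟨S4 (i + 1), 2 * S4 b, ?_, Or.inr ?_⟩
    · rw [hb, S4_split, hi, pow_succ 2 (2 * i), pow_mul, pow_succ 4 i]
      norm_num
      ring
    · rw [S4_eq, hi]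
      have : 2 * i + 1 + 1 = 2 * (i + 1) := by ring
      rw [this, pow_mul]; norm_num

/-- every interval is contained in a not much longer block of one of the two grids -/
lemma contain (A S n D : ℕ) (hD : 1 ≤ D) (s0 k : ℕ) (hS : S = s0 + k * (8 * D))
    (hs : 3 * s0 + 1 = 8 * D ∨ 3 * s0 + 1 = 16 * D) (hn : A + S + D ≤ n) :
    (∃ c, A + c * (8 * D) ≤ n - D ∧ n + D ≤ A + (c + 1) * (8 * D)) ∨
    (∃ c, A + S + c * (8 * D) ≤ n - D ∧ n + D ≤ A + S + (c + 1) * (8 * D)) := by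
  obtain ⟨W, hW⟩ : ∃ W, W = 8 * D := ⟨_, rfl⟩
  rw [← hW] at hS hs ⊢
  obtain ⟨x, hx⟩ : ∃ x, x = n - D - A := ⟨_, rfl⟩
  have hdm := Nat.div_add_mod x W
  obtain ⟨c, hc⟩ : ∃ c, c = x / W := ⟨_, rfl⟩
  obtain ⟨ρ, hρ⟩ : ∃ ρ, ρ = x % W := ⟨_, rfl⟩
  have hρW : ρ < W := by rw [hρ]; exact Nat.mod_lt _ (by omega)
  rw [← hc, ← hρ] at hdm
  have hcW : (c + 1) * W = W * c + W := by ring
  have hcW' : c * W = W * c := mul_comm _ _
  by_cases h : ρ + 2 * D ≤ W
  · left
    refine ⟨c, by omega, by omega⟩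
  · right
    have hkc : k ≤ c := by
      by_contra hcon
      have h1 : (c + 1) * W ≤ k * W := Nat.mul_le_mul_right W (by omega)
      omega
    obtain ⟨d, hd⟩ : ∃ d, c = k + d := ⟨c - k, by omega⟩
    have h2 : W * c = k * W + d * W := by rw [hd]; ring
    have h3 : (d + 1) * W = d * W + W := by ring
    refine ⟨d, ?_, ?_⟩
    · rcases hs with hs | hs <;> omega
    · rcases hs with hs | hs <;> omega

open Classical in
/-- counting the points in bad blocks -/
lemma card_blocks (Bd : ℕ → Prop) (A' N W : ℕ) (hW : 1 ≤ W) :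
    ((Ioc A' (A' + N * W)).filter (fun n => Bd ((n - A' - 1) / W))).card ≤
      W * ((range N).filter Bd).card := by
  have h1 : (Ioc A' (A' + N * W)).filter (fun n => Bd ((n - A' - 1) / W)) ⊆
      ((range N).filter Bd).biUnion (fun c => Ioc (A' + c * W) (A' + (c + 1) * W)) := by
    intro n hn
    rw [mem_filter, mem_Ioc] at hn
    obtain ⟨⟨h1, h2⟩, h3⟩ := hn
    rw [mem_biUnion]
    obtain ⟨x, hx⟩ : ∃ x, x = n - A' - 1 := ⟨_, rfl⟩
    rw [← hx] at h3
    have hdm := Nat.div_add_mod x W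
    have hlt : x % W < W := Nat.mod_lt _ (by omega)
    obtain ⟨c, hc⟩ : ∃ c, c = x / W := ⟨_, rfl⟩
    rw [← hc] at h3 hdm
    have hcW : (c + 1) * W = W * c + W := by ring
    have hcW' : c * W = W * c := mul_comm _ _
    refine ⟨c, ?_, ?_⟩
    · rw [mem_filter, mem_range]
      refine ⟨?_, h3⟩
      by_contra hcon
      have h4 : N * W ≤ c * W := Nat.mul_le_mul_right W (by omega)
      omega
    · rw [mem_Ioc]; omega
  refine (card_le_card h1).trans ?_
  refine (Finset.card_biUnion_le_card_mul _ _ W (fun c _ => ?_)).trans (le_of_eq (mul_comm _ _))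
  rw [Nat.card_Ioc]
  have : (c + 1) * W = c * W + W := by ring
  omega

section
variable {P : ℕ → Prop} [DecidablePred P]

lemma co_sub (A' a b : ℕ) (h : a ≤ b) :
    (co P 0 (A' + b) : ℝ) - co P 0 (A' + a) = co P (A' + a) (A' + b) := by
  have h1 := co_add (P := P) (a := 0) (b := A' + a) (c := A' + b) (Nat.zero_le _) (by omega)
  have h2 : ((co P 0 (A' + a) + co P (A' + a) (A' + b) : ℕ) : ℝ) = co P 0 (A' + b) := by
    exact_mod_cast h1
  push_cast at h2
  linarith

/-- discrepancy in a good block -/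
theorem disc (A' w q l c : ℕ) (hw : 1 ≤ w) (τ : ℝ)
    (h : ¬ Bad (fun i => (co P 0 (A' + i * w) : ℝ)) q τ l c) (u v : ℕ)
    (hu : A' + c * 2 ^ (l + q) * w ≤ u) (huv : u ≤ v) (hv : v ≤ A' + (c + 1) * 2 ^ (l + q) * w) :
    |(co P u v : ℝ) - ((v : ℝ) - u) *
      ((co P (A' + c * 2 ^ (l + q) * w) (A' + (c + 1) * 2 ^ (l + q) * w) : ℝ) / (2 ^ (l + q) * w))| ≤
      2 * ((co P (A' + c * 2 ^ (l + q) * w) (A' + (c + 1) * 2 ^ (l + q) * w) : ℝ) / 2 ^ q) +
        (2 + 2 ^ q) * (τ * 2 ^ l) := by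
  obtain ⟨g, hg⟩ : ∃ g : ℕ → ℝ, g = fun i => (co P 0 (A' + i * w) : ℝ) := ⟨_, rfl⟩
  rw [← hg] at h
  obtain ⟨len, hlen⟩ : ∃ len, len = 2 ^ l * w := ⟨_, rfl⟩
  have hlen1 : 1 ≤ len := by rw [hlen]; exact Nat.mul_pos (by positivity) hw
  have hlenr : (0 : ℝ) < len := by exact_mod_cast hlen1
  have e1 : A' + c * 2 ^ (l + q) * w = A' + (c * 2 ^ q) * len := by rw [hlen, pow_add]; ring
  have e2 : A' + (c + 1) * 2 ^ (l + q) * w = A' + ((c + 1) * 2 ^ q) * len := by
    rw [hlen, pow_add]; ring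
  rw [e1] at hu
  rw [e2] at hv
  rw [e1, e2]
  -- value of the block
  obtain ⟨m, hm⟩ : ∃ m : ℝ, m = S g (l + q) c / 2 ^ q := ⟨_, rfl⟩
  have hSblock : S g (l + q) c = (co P (A' + c * 2 ^ q * len) (A' + (c + 1) * 2 ^ q * len) : ℝ) := by
    unfold S
    rw [hg]
    have a1 : (c + 1) * 2 ^ (l + q) * w = (c + 1) * 2 ^ q * len := by rw [hlen, pow_add]; ring
    have a2 : c * 2 ^ (l + q) * w = c * 2 ^ q * len := by rw [hlen, pow_add]; ring
    simp only
    rw [a1, a2]
    exact co_sub A' _ _ (Nat.mul_le_mul_right _ (Nat.mul_le_mul_right _ (Nat.le_succ c)))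
  have hm' : m = (co P (A' + c * 2 ^ q * len) (A' + (c + 1) * 2 ^ q * len) : ℝ) / 2 ^ q := by
    rw [hm, hSblock]
  have hm0 : 0 ≤ m := by rw [hm']; positivity
  have e3 : (co P (A' + c * 2 ^ q * len) (A' + (c + 1) * 2 ^ q * len) : ℝ) / (2 ^ (l + q) * w) =
      m / len := by
    rw [hm', hlen, pow_add]
    push_cast
    field_simp
  rw [e3, ← hm']
  -- deviations
  have hdev : ∀ i i' : ℕ, c * 2 ^ q ≤ i → i ≤ i' → i' ≤ (c + 1) * 2 ^ q →
      |(co P (A' + i * len) (A' + i' * len) : ℝ) - ((i' : ℝ) - i) * m| ≤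
        ((i' : ℝ) - i) * (τ * 2 ^ l) := by
    intro i i' h1 h2 h3
    have h4 := dev g q τ l c h i i' h1 h2 h3
    have h5 : g (i' * 2 ^ l) - g (i * 2 ^ l) = (co P (A' + i * len) (A' + i' * len) : ℝ) := by
      rw [hg]
      have a1 : i' * 2 ^ l * w = i' * len := by rw [hlen]; ring
      have a2 : i * 2 ^ l * w = i * len := by rw [hlen]; ring
      simp only
      rw [a1, a2]
      exact co_sub A' _ _ (Nat.mul_le_mul_right _ h2)
    rwa [h5, ← hm] at h4
  obtain ⟨T, hT⟩ : ∃ T : ℝ, T = τ * 2 ^ l := ⟨_, rfl⟩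
  rw [← hT] at hdev ⊢
  -- indices
  obtain ⟨x, hx⟩ : ∃ x, u = A' + x := ⟨u - A', by
    have : A' ≤ u := le_trans (Nat.le_add_right _ _) hu
    omega⟩
  obtain ⟨z, hz⟩ : ∃ z, v = A' + z := ⟨v - A', by omega⟩
  have hxz : x ≤ z := by omega
  have hux : c * 2 ^ q * len ≤ x := by omega
  have hvz : z ≤ (c + 1) * 2 ^ q * len := by omega
  obtain ⟨α, hα⟩ : ∃ α, α = x / len := ⟨_, rfl⟩
  obtain ⟨β, hβ⟩ : ∃ β, β = z / len := ⟨_, rfl⟩
  have hα1 : α * len ≤ x := by rw [hα]; exact Nat.div_mul_le_self x len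
  have hα2 : x < (α + 1) * len := by
    rw [hα, mul_comm]; exact Nat.lt_mul_div_succ x (by omega)
  have hβ1 : β * len ≤ z := by rw [hβ]; exact Nat.div_mul_le_self z len
  have hβ2 : z < (β + 1) * len := by
    rw [hβ, mul_comm]; exact Nat.lt_mul_div_succ z (by omega)
  have hαβ : α ≤ β := by rw [hα, hβ]; exact Nat.div_le_div_right hxz
  have hα3 : c * 2 ^ q ≤ α := by
    rw [hα, Nat.le_div_iff_mul_le (by omega)]; exact hux
  have hβ3 : β ≤ (c + 1) * 2 ^ q := by
    rw [hβ]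
    exact Nat.div_le_of_le_mul (by rw [mul_comm]; exact hvz)
  have hα1r : (α : ℝ) * len ≤ x := by exact_mod_cast hα1
  have hα2r : (x : ℝ) ≤ ((α : ℝ) + 1) * len := by exact_mod_cast hα2.le
  have hβ1r : (β : ℝ) * len ≤ z := by exact_mod_cast hβ1
  have hβ2r : (z : ℝ) ≤ ((β : ℝ) + 1) * len := by exact_mod_cast hβ2.le
  have hαβr : (α : ℝ) ≤ β := by exact_mod_cast hαβ
  have hT0 : 0 ≤ T := by
    have h1 := hdev (c * 2 ^ q) (c * 2 ^ q + 1) le_rfl (Nat.le_succ _) (by
      have : 1 ≤ 2 ^ q := Nat.one_le_two_pow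
      have : (c + 1) * 2 ^ q = c * 2 ^ q + 2 ^ q := by ring
      omega)
    have h2 := (abs_nonneg _).trans h1
    have e : (((c * 2 ^ q + 1 : ℕ) : ℝ) - ((c * 2 ^ q : ℕ) : ℝ)) = 1 := by push_cast; ring
    rw [e, one_mul] at h2
    exact h2
  have hβα : (β : ℝ) - α ≤ 2 ^ q := by
    have h1 : β ≤ α + 2 ^ q := by
      have : (c + 1) * 2 ^ q = c * 2 ^ q + 2 ^ q := by ring
      omega
    have h2 : (β : ℝ) ≤ α + 2 ^ q := by exact_mod_cast h1
    linarith
  have hvu : (v : ℝ) - u = (z : ℝ) - x := by rw [hx, hz]; push_cast; ring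
  have hM : m / len * len = m := div_mul_cancel₀ m hlenr.ne'
  have hMl0 : 0 ≤ m / len := by positivity
  rw [hvu, abs_le]
  constructor
  · -- lower bound
    have hup : ((z : ℝ) - x) * (m / len) ≤ ((β : ℝ) - α + 1) * m := by
      calc ((z : ℝ) - x) * (m / len) ≤ (((β : ℝ) - α + 1) * len) * (m / len) := by
            apply mul_le_mul_of_nonneg_right _ hMl0
            linarith
        _ = ((β : ℝ) - α + 1) * (m / len * len) := by ring
        _ = _ := by rw [hM]
    rcases Nat.lt_or_ge α β with hlt | hge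
    · have h1 := (abs_le.1 (hdev (α + 1) β (by omega) (by omega) hβ3)).1
      have h2 : (co P (A' + (α + 1) * len) (A' + β * len) : ℝ) ≤ co P u v := by
        have h3 : co P (A' + (α + 1) * len) (A' + β * len) ≤ co P u v := by
          refine (co_mono (P := P) (b' := v) (by omega)).trans (co_anti (by omega))
        exact_mod_cast h3
      push_cast at h1
      have h3 : ((β : ℝ) - (α + 1)) * T ≤ 2 ^ q * T := by
        apply mul_le_mul_of_nonneg_right _ hT0
        linarith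
      nlinarith
    · have hab : (α : ℝ) = β := by
        have : α = β := le_antisymm hαβ hge
        exact_mod_cast this
      have h2 : (0 : ℝ) ≤ co P u v := Nat.cast_nonneg _
      rw [hab] at hup
      have h3 : 0 ≤ (2 + 2 ^ q) * T := by positivity
      linarith
  · -- upper bound
    have hlo : ((β : ℝ) - α - 1) * m ≤ ((z : ℝ) - x) * (m / len) := by
      calc ((β : ℝ) - α - 1) * m = ((β : ℝ) - α - 1) * (m / len * len) := by rw [hM]
        _ = (((β : ℝ) - α - 1) * len) * (m / len) := by ring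
        _ ≤ _ := by
          apply mul_le_mul_of_nonneg_right _ hMl0
          linarith
    rcases Nat.lt_or_ge β ((c + 1) * 2 ^ q) with hlt | hge
    · have h1 := (abs_le.1 (hdev α (β + 1) hα3 (by omega) hlt)).2
      have h2 : (co P u v : ℝ) ≤ co P (A' + α * len) (A' + (β + 1) * len) := by
        have h3 : co P u v ≤ co P (A' + α * len) (A' + (β + 1) * len) := by
          refine (co_mono (P := P) (b' := A' + (β + 1) * len) (by omega)).trans (co_anti (by omega))
        exact_mod_cast h3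
      push_cast at h1
      have h3 : ((β : ℝ) + 1 - α) * T ≤ (1 + 2 ^ q) * T := by
        apply mul_le_mul_of_nonneg_right _ hT0
        linarith
      nlinarith
    · have hβe : β = (c + 1) * 2 ^ q := le_antisymm hβ3 hge
      have hzb : z = β * len := le_antisymm (by rw [hβe]; exact hvz) hβ1
      have h1 := (abs_le.1 (hdev α β hα3 hαβ hβ3)).2
      have h2 : (co P u v : ℝ) ≤ co P (A' + α * len) (A' + β * len) := by
        have h3 : co P u v ≤ co P (A' + α * len) (A' + β * len) := by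
          refine (co_mono (P := P) (b' := A' + β * len) (by omega)).trans (co_anti (by omega))
        exact_mod_cast h3
      have h3 : ((β : ℝ) - α) * T ≤ 2 ^ q * T := mul_le_mul_of_nonneg_right hβα hT0
      nlinarith

end

end Pool.Agent.W123.GS
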