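import Pool.Agent.H27.G.R_seed8.W123.GS.Main

set_option autoImplicit false

/-!
# All but boundedly many scales: separate forms
-/

namespace Pool.Agent.W123.GS

open Finset Pool.Agent.W123.RP

open Classical in
/-- positive proportion -/
theorem scales_pos (cS C1 C2 : ℝ) (hcS : 0 < cS) (hC1 : 0 < C1) (hC2 : 0 < C2) :
    ∃ c₁ c₂ κ : ℝ, 0 < c₁ ∧ 0 < c₂ ∧ 0 < κ ∧ ∀ δ : ℝ, 0 < δ → ∃ (K' : ℕ) (B0 : ℝ),
      0 < B0 ∧ ∀ (P P' : ℕ → Prop) (X : ℕ) (L : ℝ),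
      2 ≤ L → B0 * L ^ 2 ≤ X → (∀ n, P n → P' n) →
      (co P' 0 (4 * X) : ℝ) ≤ C1 * X / L → cS * X / L ≤ (co P X (2 * X) : ℝ) →
      ∑ n ∈ Finset.Ico X (2 * X + 1), ((co P' n (n + ⌊L⌋₊) : ℝ)) ^ 2 ≤ C2 * X →
      κ * X ≤ (((Finset.Ioc X (2 * X)).filter (fun n =>
        ((range (Nat.log 2 X + 1)).filter (fun j => L ≤ (2 : ℝ) ^ j ∧
          ¬ Good P c₁ c₂ δ L n j)).card ≤ K')).card : ℝ) := by
  obtain ⟨c₁, c₂, κ, h1, h2, h3, h⟩ := scales_abs cS C1 C2 hcS hC1 hC2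
  refine ⟨c₁, c₂, κ, h1, h2, h3, ?_⟩
  intro δ hδ
  obtain ⟨K', lam, B0, -, hB0, h4⟩ := h δ 1 hδ one_pos
  exact ⟨K', B0, hB0, fun P P' X L a b c d e f => (h4 P P' X L a b c d e f).1⟩

open Classical in
/-- almost all points; no lower bound needed -/
theorem scales_all (C1 C2 : ℝ) (hC1 : 0 < C1) (hC2 : 0 < C2) (δ η : ℝ) (hδ : 0 < δ) (hη : 0 < η) :
    ∃ (Kb : ℕ) (B0 : ℝ), 0 < B0 ∧ ∀ (P P' : ℕ → Prop) (X : ℕ) (L : ℝ),
      2 ≤ L → B0 * L ^ 2 ≤ X → (∀ n, P n → P' n) →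
      (co P' 0 (4 * X) : ℝ) ≤ C1 * X / L →
      ∑ n ∈ Finset.Ico X (2 * X + 1), ((co P' n (n + ⌊L⌋₊) : ℝ)) ^ 2 ≤ C2 * X →
      (((Finset.Ioc X (2 * X)).filter (fun n =>
        Kb < ((range (Nat.log 2 X + 1)).filter (fun j => L ≤ (2 : ℝ) ^ j ∧
          ¬ Good P 0 (4 * C1 / η) δ L n j)).card)).card : ℝ) ≤ η * X := by
  obtain ⟨Kb, Bb, hBb, hB⟩ := scales_core 0 (4 * C1 / η) 1 C2 (min (η / 2) 1) δ (by positivity) le_rfl hC2
    (by positivity) (min_le_right _ _) hδ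
  refine ⟨Kb, Bb + 1, by positivity, ?_⟩
  intro P P' X L hL2 hX hPP hup hmom
  have hL0 : 0 < L := by linarith
  have hL4 : 4 ≤ L ^ 2 := by nlinarith
  have hXs : Bb * L ^ 2 + L ^ 2 ≤ X := by linarith
  have t3 : 0 ≤ Bb * L ^ 2 := by positivity
  have hXpos : (0 : ℝ) < X := by linarith
  have hB' := hB P P' X L hL2 (by linarith) hPP hmom
  obtain ⟨τ, hτ⟩ : ∃ τ : ℝ, τ = 4 * C1 / η / L := ⟨_, rfl⟩
  have hτ0 : 0 < τ := by rw [hτ]; positivity
  have hr := max_right (P := P') τ hτ0 (4 * X) (4 * X - X) X rfl (by omega)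
  have hl := max_left (P := P') τ hτ0 0 (2 * X - 0) (2 * X) rfl (by omega)
  obtain ⟨R, hR⟩ : ∃ R, R = ((Finset.Ico X (4 * X)).filter (fun n => ∃ H : ℕ, 1 ≤ H ∧ n + H ≤ 4 * X ∧
    τ * H < (co P' n (n + H) : ℝ))) := ⟨_, rfl⟩
  obtain ⟨S, hS⟩ : ∃ S, S = ((Finset.Ioc 0 (2 * X)).filter (fun n => ∃ H : ℕ, 1 ≤ H ∧ 0 + H ≤ n ∧
    τ * H < (co P' (n - H) n : ℝ))) := ⟨_, rfl⟩
  rw [← hR] at hr
  rw [← hS] at hl
  have hup2 : τ * (η / 4 * X) = C1 * X / L := by rw [hτ]; field_simp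
  have hRc : (R.card : ℝ) ≤ η / 4 * X := by
    refine le_of_mul_le_mul_left (hr.trans ?_) hτ0
    rw [hup2]
    refine le_trans ?_ hup
    have := co_anti (P := P') (a := 0) (a' := X) (b := 4 * X) (Nat.zero_le _)
    exact_mod_cast this
  have hSc : (S.card : ℝ) ≤ η / 4 * X := by
    refine le_of_mul_le_mul_left (hl.trans ?_) hτ0
    rw [hup2]
    refine le_trans ?_ hup
    have := co_mono (P := P') (a := 0) (b := 2 * X) (b' := 4 * X) (by omega)
    exact_mod_cast this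
  have hsub : (Finset.Ioc X (2 * X)).filter (fun n =>
      Kb < ((range (Nat.log 2 X + 1)).filter (fun j => L ≤ (2 : ℝ) ^ j ∧
        ¬ Good P 0 (4 * C1 / η) δ L n j)).card) ⊆ (R ∪ S) ∪
      ((Finset.Ioc X (2 * X)).filter (fun n => (∀ a b : ℕ, a ≤ n → n ≤ b →
      1 * L ≤ (b : ℝ) - a → (b : ℝ) - a ≤ n →
        0 * ((b : ℝ) - a) / L ≤ co P a b ∧ (co P' a b : ℝ) ≤ (4 * C1 / η) * ((b : ℝ) - a) / L) ∧
      Kb < ((range (Nat.log 2 X + 1)).filter (fun j => L ≤ (2 : ℝ) ^ j ∧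
        ¬ Good P 0 (4 * C1 / η) δ L n j)).card)) := by
    intro n hn
    rw [mem_filter] at hn
    have hnX := mem_Ioc.1 hn.1
    by_cases hnR : n ∈ R
    · exact mem_union_left _ (mem_union_left _ hnR)
    by_cases hnS : n ∈ S
    · exact mem_union_left _ (mem_union_right _ hnS)
    apply mem_union_right
    rw [mem_filter]
    refine ⟨hn.1, ?_, hn.2⟩
    intro a b ha hb _ hab
    refine ⟨by simp, ?_⟩
    rw [hR, mem_filter, not_and, mem_Ico] at hnR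
    rw [hS, mem_filter, not_and, mem_Ioc] at hnS
    have hnR' := hnR (by omega)
    have hnS' := hnS (by omega)
    push Not at hnR' hnS'
    have hab' : b ≤ a + n := by
      have : (b : ℝ) ≤ a + n := by linarith
      exact_mod_cast this
    have k1 : (co P' n b : ℝ) ≤ τ * ((b : ℝ) - n) := by
      rcases Nat.eq_or_lt_of_le hb with h | h
      · rw [← h, co_self]; simp
      · have h3 := hnR' (b - n) (by omega) (by omega)
        have h4 : n + (b - n) = b := by omega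
        rw [h4, Nat.cast_sub hb] at h3
        exact h3
    have k2 : (co P' a n : ℝ) ≤ τ * ((n : ℝ) - a) := by
      rcases Nat.eq_or_lt_of_le ha with h | h
      · rw [h, co_self]; simp
      · have h3 := hnS' (n - a) (by omega) (by omega)
        have h4 : n - (n - a) = a := by omega
        rw [h4, Nat.cast_sub ha] at h3
        exact h3
    have k3 : (co P' a b : ℝ) = co P' a n + co P' n b := by
      have := co_add (P := P') ha hb
      exact_mod_cast this.symm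
    rw [k3]
    have k4 : (4 * C1 / η) * ((b : ℝ) - a) / L = τ * ((n : ℝ) - a) + τ * ((b : ℝ) - n) := by
      rw [hτ]; ring
    rw [k4]
    linarith
  have h1 := (Finset.card_le_card hsub).trans (Finset.card_union_le _ _)
  have h2 := Finset.card_union_le R S
  have hmin : min (η / 2) 1 * (X : ℝ) ≤ η / 2 * X :=
    mul_le_mul_of_nonneg_right (min_le_left _ _) hXpos.le
  have h3 : (((Finset.Ioc X (2 * X)).filter (fun n =>
      Kb < ((range (Nat.log 2 X + 1)).filter (fun j => L ≤ (2 : ℝ) ^ j ∧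
        ¬ Good P 0 (4 * C1 / η) δ L n j)).card)).card : ℝ) ≤ (R.card + S.card : ℝ) +
      (((Finset.Ioc X (2 * X)).filter (fun n => (∀ a b : ℕ, a ≤ n → n ≤ b →
      1 * L ≤ (b : ℝ) - a → (b : ℝ) - a ≤ n →
        0 * ((b : ℝ) - a) / L ≤ co P a b ∧ (co P' a b : ℝ) ≤ (4 * C1 / η) * ((b : ℝ) - a) / L) ∧
      Kb < ((range (Nat.log 2 X + 1)).filter (fun j => L ≤ (2 : ℝ) ^ j ∧
        ¬ Good P 0 (4 * C1 / η) δ L n j)).card)).card : ℝ) := by
    exact_mod_cast h1.trans (Nat.add_le_add_right h2 _)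
  linarith

end Pool.Agent.W123.GS
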